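import Pool.Agent.N321.KT.Defs

/-!
Project KT, leaf LOC: truncation and scaling of jets.
-/

set_option autoImplicit false

namespace Pool.Agent.N323.KT

open Pool.Agent.N321.KT

theorem mul_scale {ι R : Type} [CommRing R] (r : R) (u v : Jet ι R) (w : List ι) (a b : R) :
    mul (fun w => a * r ^ w.length * u w) (fun w => b * r ^ w.length * v w) w =
      a * b * r ^ w.length * mul u v w := by
  induction w generalizing u v a b with
  | nil => simp [mul]; ring
  | cons i w ih =>
    have h1 : D i (fun w => a * r ^ w.length * u w) =
        fun w => (a * r) * r ^ w.length * D i u w := by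
      funext w
      simp only [D, List.length_cons, pow_succ]
      ring
    have h2 : D i (fun w => b * r ^ w.length * v w) =
        fun w => (b * r) * r ^ w.length * D i v w := by
      funext w
      simp only [D, List.length_cons, pow_succ]
      ring
    simp only [mul, h1, h2, ih, List.length_cons, pow_succ]
    ring

theorem mul_local {ι R : Type} [CommRing R] (u v v' : Jet ι R) (w : List ι)
    (h : ∀ w' : List ι, w'.length ≤ w.length → v w' = v' w') : mul u v w = mul u v' w := by
  induction w generalizing u v v' with
  | nil => simp only [mul]; rw [h [] le_rfl]
  | cons i w ih =>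
    simp only [mul]
    rw [ih (D i u) v v' (fun w' hw => h w' (by simp only [List.length_cons]; omega)),
      ih u (D i v) (D i v') (fun w' hw => h (i :: w') (by simp only [List.length_cons]; omega))]

theorem t : S_LOC := by
  intro ι _ _ m K v r hS hom
  refine ⟨?_, ?_, ?_⟩
  · intro w w' hw
    have hl := hw.length_eq
    simp only [hl, hS w w' hw]
  · intro w hw
    by_contra hc
    exact hw (if_neg hc)
  · intro w hw i j
    have key : ∀ (s j i : ι), mul ((fun s j w => r ^ w.length * K s j w) s j)
        (D s (fun w : List ι => if 1 ≤ w.length ∧ w.length ≤ m then r ^ w.length * v w else 0))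
        (i :: w) = r * r ^ (w.length + 1) * mul (K s j) (D s v) (i :: w) := by
      intro s j i
      have e1 := mul_local ((fun s j w => r ^ w.length * K s j w) s j)
        (D s (fun w : List ι => if 1 ≤ w.length ∧ w.length ≤ m then r ^ w.length * v w else 0))
        (fun w => r * r ^ w.length * D s v w) (i :: w) (by
          intro w' hw'
          simp only [List.length_cons] at hw'
          simp only [D, List.length_cons]
          rw [if_pos ⟨by omega, by omega⟩, pow_succ]
          ring)
      rw [e1]
      have e2 := mul_scale r (K s j) (D s v) (i :: w) 1 r
      simp only [one_mul] at e2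
      rw [List.length_cons] at e2
      exact e2
    have h0 := hom w i j
    simp only [om, th] at h0 ⊢
    rw [Finset.sum_congr rfl (fun s _ => key s j i), Finset.sum_congr rfl (fun s _ => key s i j),
      ← Finset.mul_sum, ← Finset.mul_sum, ← mul_sub, h0, mul_zero]

end Pool.Agent.N323.KT
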